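import Pool.Agent.X303.TS.Main

/-!
# The properties of morphisms from the conjectures of Tate and Beilinson
-/

set_option autoImplicit false

namespace Pool.Agent.X303.TS

open CategoryTheory CategoryTheory.Limits CategoryTheory.Pretriangulated
  Pool.Agent.W495.FM Pool.Agent.X303.TBDual Module

variable {K : Type} [Category.{0} K] {W L Ω : Type} [Field Ω] [CharZero Ω] {V : Type}
  [Preadditive K] [HasZeroObject K] [HasShift K ℤ] [∀ n : ℤ, (shiftFunctor K n).Additive]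
  [Pretriangulated K] {D : MotiveData K W L Ω}

theorem good [Nonempty L] (hG : IsGeometric D) {T : L → Homology Ω V} (hT : ∀ ℓ, IsHomology (T ℓ))
    (hW : ∀ (ℓ : L) X i Y j, ∃ (Z : V) (b : ℤ), TB (T ℓ) Z ∧ IsPure (T ℓ) Z ∧
      IsHomOf D ℓ (T ℓ) Z b (D.obj X i) (D.obj Y j)) : Good D := by
  obtain ⟨ℓ₀⟩ := ‹Nonempty L›
  refine ⟨fun X i Y j n hn f => ?_, fun ℓ X i Y j f hf => ?_, fun X i Y j f => ?_⟩
  · obtain ⟨Z, b, h1, h2, h3⟩ := hW ℓ₀ X i Y j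
    exact vanish (hT ℓ₀) h1 h2 h3 hn f
  · obtain ⟨Z, b, h1, h2, h3⟩ := hW ℓ X i Y j
    exact faithful (hT ℓ) h1 h3 hf
  · obtain ⟨Z, b, h1, h2, h3⟩ := hW ℓ₀ X i Y j
    obtain ⟨Z', b', h1', h2', h3'⟩ := hW ℓ₀ Y j X i
    exact regular_link (hT ℓ₀) h1 h1' (hG.additive ℓ₀) h3 h3' f

end Pool.Agent.X303.TS
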