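import Mathlib

/-!
# Direct summands and generation
-/

set_option autoImplicit false

namespace Pool.Agent.X303.TS

open CategoryTheory CategoryTheory.Limits CategoryTheory.Pretriangulated

variable {K : Type} [Category.{0} K]

/-- `U` is a direct summand of `X`. -/
def IsRetract (U X : K) : Prop := ∃ (i : U ⟶ X) (r : X ⟶ U), i ≫ r = 𝟙 U

/-- The category is the smallest class of objects which contains those with the property `G` and is closed
under direct summands, shifts and cones. -/
def IsGenerated [Preadditive K] [HasZeroObject K] [HasShift K ℤ]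
    [∀ n : ℤ, (shiftFunctor K n).Additive] [Pretriangulated K] (G : K → Prop) : Prop :=
  ∀ Q : K → Prop, (∀ X, G X → Q X) → (∀ X Y, IsRetract X Y → Q Y → Q X) →
    (∀ X (n : ℤ), Q X → Q (X⟦n⟧)) →
    (∀ T ∈ distTriang K, Q T.obj₁ → Q T.obj₂ → Q T.obj₃) → ∀ X, Q X

end Pool.Agent.X303.TS
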