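import Pool.Agent.X303.TS.Semi

/-!
# The t-structure of a semisimple triangulated category
-/

set_option autoImplicit false

namespace Pool.Agent.X303.TS

open CategoryTheory CategoryTheory.Limits CategoryTheory.Pretriangulated

variable {K : Type} [Category.{0} K] [Preadditive K] [HasZeroObject K] [HasShift K ℤ]
  [∀ n : ℤ, (shiftFunctor K n).Additive] [Pretriangulated K]

/-- Additive functors preserve direct sums. -/
noncomputable def mapBi {L L' : Type*} [Category* L] [Category* L'] [Preadditive L] [Preadditive L']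
    [HasBinaryBiproducts L] [HasBinaryBiproducts L'] (F : L ⥤ L') [F.Additive] (X Y : L) :
    F.obj (X ⊞ Y) ≅ F.obj X ⊞ F.obj Y where
  hom := biprod.lift (F.map biprod.fst) (F.map biprod.snd)
  inv := biprod.desc (F.map biprod.inl) (F.map biprod.inr)
  hom_inv_id := by
    rw [biprod.lift_desc, ← F.map_comp, ← F.map_comp, ← F.map_add, biprod.total, F.map_id]
  inv_hom_id := by
    apply biprod.hom_ext'
    · apply biprod.hom_ext <;> simp [← F.map_comp]
    · apply biprod.hom_ext <;> simp [← F.map_comp]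

/-- The third object of a distinguished triangle with a regular first morphism. -/
theorem cone_retract (T : Triangle K) (hT : T ∈ distTriang K) (h : Regular T.mor₁) :
    IsRetract T.obj₃ (T.obj₂ ⊞ T.obj₁⟦(1 : ℤ)⟧) := by
  obtain ⟨g, hg⟩ := h
  obtain ⟨s, hs⟩ := T.yoneda_exact₂ hT (𝟙 T.obj₂ - g ≫ T.mor₁) (by
    rw [Preadditive.comp_sub, Category.comp_id, hg, sub_self])
  have h12 : T.mor₁ ≫ T.mor₂ = 0 := comp_distTriang_mor_zero₁₂ T hT
  obtain ⟨t, ht⟩ := T.yoneda_exact₃ hT (𝟙 T.obj₃ - s ≫ T.mor₂) (by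
    rw [Preadditive.comp_sub, Category.comp_id, ← Category.assoc, ← hs, Preadditive.sub_comp,
      Category.id_comp, Category.assoc, h12, comp_zero, sub_zero, sub_self])
  refine ⟨biprod.lift s T.mor₃, biprod.desc T.mor₂ t, ?_⟩
  rw [biprod.lift_desc, ← ht]
  simp

variable {I : Type} {B : I → K → Prop} {deg : I → ℤ}

/-- The shifts of blocks are blocks. -/
def IsShifted (B : I → K → Prop) (deg : I → ℤ) : Prop :=
  ∀ (τ : I) (a : ℤ) (X : K), B τ X → ∃ σ, deg σ + a = deg τ ∧ B σ (X⟦a⟧)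

theorem Sum.shift (hs : IsShifted B deg) {p q : I → Prop} {a : ℤ}
    (hpq : ∀ τ σ, p τ → deg σ + a = deg τ → q σ) {X : K} (hX : Sum B p X) : Sum B q (X⟦a⟧) := by
  induction hX with
  | zero X h => exact Sum.zero _ ((shiftFunctor K a).map_isZero h)
  | add X A Y τ hτ hA hY e ih =>
    obtain ⟨σ, h1, h2⟩ := hs τ a A hA
    exact Sum.add _ (A⟦a⟧) (Y⟦a⟧) σ (hpq τ σ hτ h1) h2 ih
      ((shiftFunctor K a).mapIso e ≪≫ mapBi (shiftFunctor K a) A Y)

theorem sum_of_generated [IsIdempotentComplete K] (hB : IsBlocks B) (hs : IsShifted B deg)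
    {G : K → Prop} (hG : ∀ X, G X → Sum B (fun _ => True) X) (hgen : IsGenerated G) (X : K) :
    Sum B (fun _ => True) X := by
  refine hgen (fun X => Sum B (fun _ => True) X) hG ?_ ?_ ?_ X
  · exact fun X Y h hY => hY.retract hB h
  · exact fun X n hX => hX.shift hs fun _ _ _ _ => trivial
  · intro T hT h1 h2
    have h3 := cone_retract T hT (Sum.regular hB h1 h2 T.mor₁)
    exact Sum.retract hB (h2.biprod (h1.shift hs fun _ _ _ _ => trivial)) h3

/-- splitting into two parts -/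
theorem Sum.split {X : K} (hX : Sum B (fun _ => True) X) (n : ℤ) :
    ∃ Y Z : K, Sum B (fun τ => deg τ ≤ n) Y ∧ Sum B (fun τ => n + 1 ≤ deg τ) Z ∧
      Nonempty (X ≅ Y ⊞ Z) := by
  induction hX with
  | zero X h =>
    obtain ⟨e⟩ := iso_left_zero (X := X) h
    exact ⟨X, X, Sum.zero X h, Sum.zero X h, ⟨e.symm⟩⟩
  | add X A W τ hτ hA hW e ih =>
    obtain ⟨Y, Z, hY, hZ, ⟨e'⟩⟩ := ih
    by_cases h : deg τ ≤ n
    · exact ⟨A ⊞ Y, Z, Sum.add _ A Y τ h hA hY (Iso.refl _), hZ,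
        ⟨e ≪≫ biprod.mapIso (Iso.refl A) e' ≪≫ (biprod.associator A Y Z).symm⟩⟩
    · refine ⟨Y, A ⊞ Z, hY, Sum.add _ A Z τ (by omega) hA hZ (Iso.refl _), ⟨?_⟩⟩
      exact e ≪≫ biprod.mapIso (Iso.refl A) e' ≪≫ (biprod.associator A Y Z).symm ≪≫
        biprod.mapIso (biprod.braiding A Y) (Iso.refl Z) ≪≫ biprod.associator Y A Z

/-- **The t-structure.** -/
def tStructure (hB : IsBlocks B) (hs : IsShifted B deg)
    (hall : ∀ X : K, Sum B (fun _ => True) X) : Triangulated.TStructure K where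
  le n := fun X => Sum B (fun τ => deg τ ≤ n) X
  ge n := fun X => Sum B (fun τ => n ≤ deg τ) X
  le_isClosedUnderIsomorphisms _ := ⟨fun e h => h.of_iso e.symm⟩
  ge_isClosedUnderIsomorphisms _ := ⟨fun e h => h.of_iso e.symm⟩
  le_shift n a n' h X hX := Sum.shift hs (fun τ σ h1 h2 => by omega) hX
  ge_shift n a n' h X hX := Sum.shift hs (fun τ σ h1 h2 => by omega) hX
  zero' X Y f hX hY := hom_zero hB (fun τ h1 h2 => by omega) hX hY f
  le_zero_le := fun X hX => Sum.mono (fun τ h => by omega) hX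
  ge_one_le := fun X hX => Sum.mono (fun τ h => by omega) hX
  exists_triangle_zero_one A := by
    obtain ⟨Y, Z, hY, hZ, ⟨e⟩⟩ := (hall A).split (deg := deg) 0
    refine ⟨Y, Z, hY, hZ, biprod.inl ≫ e.inv, e.hom ≫ biprod.snd, 0, ?_⟩
    refine isomorphic_distinguished _ (binaryBiproductTriangle_distinguished Y Z) _ ?_
    refine Triangle.isoMk _ _ (Iso.refl _) e (Iso.refl _) ?_ ?_ ?_
    · change (biprod.inl ≫ e.inv) ≫ e.hom = 𝟙 Y ≫ biprod.inl
      simp
    · change (e.hom ≫ biprod.snd) ≫ 𝟙 Z = e.hom ≫ biprod.snd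
      simp
    · change (0 : Z ⟶ Y⟦(1 : ℤ)⟧) ≫ (shiftFunctor K (1 : ℤ)).map (𝟙 Y) = 𝟙 Z ≫ 0
      simp

theorem Sum.bounded {X : K} (hX : Sum B (fun _ => True) X) :
    ∃ a b : ℤ, Sum B (fun τ => deg τ ≤ b) X ∧ Sum B (fun τ => a ≤ deg τ) X := by
  induction hX with
  | zero X h => exact ⟨0, 0, Sum.zero X h, Sum.zero X h⟩
  | add X A Y τ hτ hA hY e ih =>
    obtain ⟨a, b, h1, h2⟩ := ih
    refine ⟨min a (deg τ), max b (deg τ), Sum.add X A Y τ (le_max_right _ _) hA
      (h1.mono fun σ h => h.trans (le_max_left _ _)) e,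
      Sum.add X A Y τ (min_le_right _ _) hA (h2.mono fun σ h => (min_le_left _ _).trans h) e⟩

open MonoidalCategory in
theorem Sum.tensor [MonoidalCategory K] [MonoidalPreadditive K]
    (ht : ∀ τ σ X Y, B τ X → B σ Y → ∃ ρ, deg ρ = deg τ + deg σ ∧ B ρ (X ⊗ Y))
    {p q r : I → Prop} (hpq : ∀ τ σ ρ, p τ → q σ → deg ρ = deg τ + deg σ → r ρ) {X Y : K}
    (hX : Sum B p X) (hY : Sum B q Y) : Sum B r (X ⊗ Y) := by
  induction hX with
  | zero X h => exact Sum.zero _ ((tensorRight Y).map_isZero h)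
  | add X A Z τ hτ hA hZ e ih =>
    have h1 : Sum B r (A ⊗ Y) := by
      clear ih
      induction hY with
      | zero Y h => exact Sum.zero _ ((tensorLeft A).map_isZero h)
      | add Y C W σ hσ hC hW e' ih' =>
        obtain ⟨ρ, h2, h3⟩ := ht τ σ A C hA hC
        exact Sum.add _ (A ⊗ C) (A ⊗ W) ρ (hpq τ σ ρ hτ hσ h2) h3 ih'
          ((tensorLeft A).mapIso e' ≪≫ mapBi (tensorLeft A) C W)
    exact (h1.biprod ih).of_iso ((tensorRight Y).mapIso e ≪≫ mapBi (tensorRight Y) A Z)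

theorem Sum.realization {Ω : Type} [Field Ω] (R : ℤ → K ⥤ ModuleCat.{0} Ω)
    [∀ j, (R j).Additive] (hR : ∀ τ X, B τ X → ∀ j, j ≠ deg τ → IsZero ((R j).obj X))
    {p : I → Prop} {j : ℤ} (hp : ∀ τ, p τ → j ≠ deg τ) {X : K} (hX : Sum B p X) :
    IsZero ((R j).obj X) := by
  induction hX with
  | zero X h => exact (R j).map_isZero h
  | add X A Y τ hτ hA hY e ih =>
    have h1 : IsZero ((R j).obj A ⊞ (R j).obj Y) := by
      rw [IsZero.iff_id_eq_zero]
      apply biprod.hom_ext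
      · exact (hR τ A hA j (hp τ hτ)).eq_of_tgt _ _
      · exact ih.eq_of_tgt _ _
    exact h1.of_iso ((R j).mapIso e ≪≫ mapBi (R j) A Y)

end Pool.Agent.X303.TS
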