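import Pool.Agent.X303.TS.Base
import Pool.Agent.X303.PureDefs

/-!
# Triangulated categories of motives over a finite field
-/

set_option autoImplicit false

namespace Pool.Agent.X303.TS

open CategoryTheory CategoryTheory.Limits CategoryTheory.Pretriangulated
  Pool.Agent.W495.FM Pool.Agent.X303.TBDual

/-- Data of the objects `obj X i = M(X)(i)[2 i]` of the triangulated category `K`, for smooth projective
schemes `X : W`, and of the functors `R ℓ j`, the cohomology in degree `j` of the `ℓ`-adic realisation (with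
coefficients extended to the field `Ω`, an algebraically closed field isomorphic to `ℚ̄_ℓ` for all `ℓ`), with
the operation `F` of the Frobenius; here `ℓ : L` runs over the primes different from `p`. -/
structure MotiveData (K : Type) [Category.{0} K] (W L Ω : Type) [Field Ω] where
  obj : W → ℤ → K
  R : L → ℤ → K ⥤ ModuleCat.{0} Ω
  F : ∀ (ℓ : L) (j : ℤ) (A : K), (R ℓ j).obj A ≅ (R ℓ j).obj A

variable {K : Type} [Category.{0} K] {W L Ω : Type} [Field Ω]

/-- Properties of the objects `obj X i`: the functors `R ℓ j` are additive and compatible with shifts; the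
direct sum of two of these objects is a direct summand of another one (`M(X)(i)[2 i]` and `M(Y)(j)[2 j]` are
direct summands of `M(Z)(l)[2 l]` for the disjoint union `Z` of `X × ℙ^a` and `Y × ℙ^b`, for `l ≤ i, j` and
large `a` and `b`); the Künneth components are given by endomorphisms which are independent of `ℓ` (Katz and
Messing), and almost all of them are zero; the whole category is generated by these objects. -/
structure IsGeometric [Preadditive K] [HasZeroObject K] [HasShift K ℤ]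
    [∀ n : ℤ, (shiftFunctor K n).Additive] [Pretriangulated K] (D : MotiveData K W L Ω) : Prop where
  additive : ∀ ℓ j, (D.R ℓ j).Additive
  shift : ∀ ℓ j (n : ℤ), Nonempty (shiftFunctor K n ⋙ D.R ℓ j ≅ D.R ℓ (j + n))
  sum : ∀ X i Y j, ∃ Z l, IsRetract (D.obj X i ⊞ D.obj Y j) (D.obj Z l)
  kunneth : ∀ X i (m : ℤ), ∃ e : D.obj X i ⟶ D.obj X i, ∀ ℓ j,
    (j = m → (D.R ℓ j).map e = 𝟙 _) ∧ (j ≠ m → (D.R ℓ j).map e = 0)
  bounded : ∀ X i, ∃ s : Finset ℤ, ∀ ℓ, ∀ j ∉ s, IsZero ((D.R ℓ j).obj (D.obj X i))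
  generated : IsGenerated fun A : K => ∃ X i, A = D.obj X i

open MonoidalCategory in
/-- The tensor product is compatible with shifts, the objects `obj X i` are closed under tensor products
(`M(X) ⊗ M(Y) = M(X × Y)`), and the Künneth formula: `R^n(A ⊗ B)` is zero if for all `a + b = n` one of
the groups `R^a(A)` and `R^b(B)` is zero. -/
structure IsTensor [Preadditive K] [HasShift K ℤ] [MonoidalCategory K] (D : MotiveData K W L Ω) :
    Prop where
  shift : ∀ (A B : K) (a b : ℤ), Nonempty (A⟦a⟧ ⊗ B⟦b⟧ ≅ (A ⊗ B)⟦a + b⟧)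
  prod : ∀ X i Y j, ∃ Z l, Nonempty (D.obj X i ⊗ D.obj Y j ≅ D.obj Z l)
  kunneth : ∀ (A B : K) (ℓ : L) (n : ℤ),
    (∀ a b, a + b = n → IsZero ((D.R ℓ a).obj A) ∨ IsZero ((D.R ℓ b).obj B)) →
    IsZero ((D.R ℓ n).obj (A ⊗ B))

variable {V : Type}

/-- The groups of morphisms between `A = M(X)(i)[2 i]` and `B = M(Y)(j)[2 j]` are higher Chow groups of
`Z = X × Y`: the group `Hom(A, B[n])` is `H_(2 b - n)^M(Z, ℚ(b))`, for `b = dim X + i - j`; it is zero for
`n > 0` and `CH_b(Z, - n)` for `n ≤ 0`. For `n = 0` the cycle class of a morphism `f`, in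
`H_(2 b)(Z, ℚ_ℓ(b))`, is the family of the maps `R^m(f)`; this is the isomorphism of Künneth and Poincaré
of `H_(2 b)(Z, ℚ_ℓ(b))` with the space of all families of linear maps from `R^m(A)` to `R^m(B)`. -/
structure IsHomOf [Preadditive K] [HasShift K ℤ] (D : MotiveData K W L Ω) (ℓ : L)
    (T : Homology Ω V) (Z : V) (b : ℤ) (A B : K) : Prop where
  homs : ∀ n : ℤ, ∃ φ : (A ⟶ B⟦n⟧) → T.M Z (2 * b - n) b, IsAdd φ ∧ Function.Injective φ
  classes : ∃ (φ : (A ⟶ B) → T.M Z (2 * b) b)
    (κ : T.E Z (2 * b) b → ∀ m : ℤ, ((D.R ℓ m).obj A ⟶ (D.R ℓ m).obj B)),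
    IsAdd φ ∧ Function.Bijective φ ∧ IsLin Ω κ ∧ Function.Bijective κ ∧
    (∀ f m, κ (T.reg Z (2 * b) b (φ f)) m = (D.R ℓ m).map f) ∧
    ∀ e m, κ (T.frob Z (2 * b) b e) m = (D.F ℓ m A).inv ≫ κ e m ≫ (D.F ℓ m B).hom

end Pool.Agent.X303.TS
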