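import Pool.Agent.X303.TS.Build
import Pool.Agent.X303.TS.Defs
import Pool.Agent.X303.TBDual

/-!
# Morphisms between pure motives: vanishing, faithfulness, regularity
-/

set_option autoImplicit false

namespace Pool.Agent.X303.TS

open CategoryTheory CategoryTheory.Limits CategoryTheory.Pretriangulated
  Pool.Agent.W495.FM Pool.Agent.X303.TBDual Module

variable {K : Type} [Category.{0} K] {W L Ω : Type} [Field Ω] [CharZero Ω] {V : Type}
  [Preadditive K] [HasShift K ℤ] {D : MotiveData K W L Ω} {ℓ : L} {T : Homology Ω V}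
  {Z Z' : V} {b b' : ℤ} {A B : K}

theorem map_zero' {M N : Type} [AddCommGroup M] [AddCommGroup N] {f : M → N} (hf : IsAdd f) :
    f 0 = 0 :=
  map_zero (AddMonoidHom.mk' f hf)

theorem map_neg' {M N : Type} [AddCommGroup M] [AddCommGroup N] {f : M → N} (hf : IsAdd f) (x : M) :
    f (-x) = -f x :=
  map_neg (AddMonoidHom.mk' f hf) x

theorem map_sub' {M N : Type} [AddCommGroup M] [AddCommGroup N] {f : M → N} (hf : IsAdd f)
    (x y : M) : f (x - y) = f x - f y :=
  map_sub (AddMonoidHom.mk' f hf) x y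

theorem vanish (hT : IsHomology T) (hTB : TB T Z) (hp : IsPure T Z) (h : IsHomOf D ℓ T Z b A B)
    {n : ℤ} (hn : n ≠ 0) (f : A ⟶ B⟦n⟧) : f = 0 := by
  obtain ⟨φ, h1, h2⟩ := h.homs n
  apply h2
  rw [map_zero' h1]
  exact parshin hT hTB hp (by omega) _

theorem faithful (hT : IsHomology T) (hTB : TB T Z) (h : IsHomOf D ℓ T Z b A B) {f : A ⟶ B}
    (hf : ∀ m, (D.R ℓ m).map f = 0) : f = 0 := by
  obtain ⟨φ, κ, h1, h2, ⟨κ', h3⟩, h4, h5, h6⟩ := h.classes
  apply h2.1
  rw [map_zero' h1]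
  by_contra h7
  apply reg_ne_zero hTB h7
  apply h4.1
  funext m
  rw [h5, hf, h3, map_zero]
  rfl

/-- An element whose regulator is a linear combination of the regulators of a subspace. -/
theorem descend (hT : IsHomology T) (hTB : TB T Z) {a c : ℤ} (U : Submodule ℚ (T.M Z a c))
    (x : T.M Z a c) (hx : T.reg Z a c x ∈ Submodule.span Ω (T.reg Z a c '' U)) : x ∈ U := by
  by_contra hxU
  have hfin := finite_M hT hTB a c
  let β := Module.finBasis ℚ U
  have h1 : LinearIndependent ℚ (Fin.snoc (fun k => (β k : T.M Z a c)) x : Fin (_ + 1) → T.M Z a c) := by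
    rw [linearIndependent_finSnoc]
    constructor
    · exact β.linearIndependent.map' U.subtype (Submodule.ker_subtype U)
    · intro h2
      apply hxU
      refine (Submodule.span_le.2 ?_) h2
      rintro _ ⟨k, rfl⟩
      exact (β k).2
  have h2 := (hTB a c).2.1 _ _ h1
  have h3 : (fun k => T.reg Z a c ((Fin.snoc (fun k => (β k : T.M Z a c)) x : Fin (_ + 1) → T.M Z a c) k)) =
      Fin.snoc (fun k => T.reg Z a c (β k : T.M Z a c)) (T.reg Z a c x) := by
    funext k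
    refine Fin.lastCases ?_ (fun k => ?_) k
    · simp
    · simp
  rw [h3, linearIndependent_finSnoc] at h2
  apply h2.2
  refine (Submodule.span_le.2 ?_) hx
  rintro _ ⟨u, hu, rfl⟩
  -- the regulator of an element of `U`
  have hadd := hT.add Z a c
  let r : T.M Z a c →+ T.E Z a c := AddMonoidHom.mk' (T.reg Z a c) hadd
  have hreg : ∀ (q : ℚ) y, T.reg Z a c (q • y) = (q : Ω) • T.reg Z a c y := by
    have hmod : Module ℚ (T.E Z a c) := Module.compHom _ (algebraMap ℚ Ω)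
    intro q y
    have h4 := map_rat_smul r q y
    rw [show r (q • y) = T.reg Z a c (q • y) from rfl, show r y = T.reg Z a c y from rfl] at h4
    rw [h4]
    exact (Rat.cast_smul_eq_qsmul Ω q _).symm
  have h5 : u = ∑ k, β.repr ⟨u, hu⟩ k • (β k : T.M Z a c) := by
    have h6 := congrArg (fun y : U => (y : T.M Z a c)) (β.sum_repr ⟨u, hu⟩)
    simp only [Submodule.coe_sum, Submodule.coe_smul] at h6
    exact h6.symm
  have h6 : T.reg Z a c u = ∑ k, (β.repr ⟨u, hu⟩ k : Ω) • T.reg Z a c (β k : T.M Z a c) := by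
    conv_lhs => rw [h5]
    change r (∑ k, β.repr ⟨u, hu⟩ k • (β k : T.M Z a c)) = _
    rw [map_sum]
    exact Finset.sum_congr rfl fun k _ => hreg _ _
  rw [SetLike.mem_coe, h6]
  exact Submodule.sum_mem _ fun k _ => Submodule.smul_mem _ _ (Submodule.subset_span ⟨k, rfl⟩)

/-- Linear maps of vector spaces are regular. -/
theorem regular_linear {M N : Type} [AddCommGroup M] [Module Ω M] [AddCommGroup N] [Module Ω N]
    (f : M →ₗ[Ω] N) : ∃ g : N →ₗ[Ω] M, f ∘ₗ g ∘ₗ f = f := by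
  obtain ⟨g, hg⟩ := (f.rangeRestrict).exists_rightInverse_of_surjective f.range_rangeRestrict
  obtain ⟨p, hp⟩ := (LinearMap.range f).exists_isCompl
  obtain ⟨q, hq⟩ := (LinearMap.range f).subtype.exists_leftInverse_of_injective
    (Submodule.ker_subtype _)
  refine ⟨g ∘ₗ q, ?_⟩
  ext x
  have h1 : q (f x) = f.rangeRestrict x := by
    have := LinearMap.congr_fun hq (f.rangeRestrict x)
    exact this
  have h2 := LinearMap.congr_fun hg (f.rangeRestrict x)
  have h3 := congrArg Subtype.val h2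
  simp only [LinearMap.comp_apply, h1]
  exact h3

/-- A decomposition of a vector space with an endomorphism whose eigenvalue one is semisimple. -/
theorem decompose {E : Type} [AddCommGroup E] [Module Ω E] [FiniteDimensional Ω E] (φ : E →ₗ[Ω] E)
    (h : ∀ e, φ (φ e - e) = φ e - e → φ e = e) (e : E) : ∃ e₁ e₂, φ e₁ = e₁ ∧ e = e₁ + (φ e₂ - e₂) := by
  let N : E →ₗ[Ω] E := φ - LinearMap.id
  have hN : ∀ x, N x = φ x - x := fun x => rfl
  have hdis : Disjoint (LinearMap.ker N) (LinearMap.range N) := by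
    rw [Submodule.disjoint_def]
    rintro _ h1 ⟨y, rfl⟩
    rw [LinearMap.mem_ker, hN, hN, sub_eq_zero] at h1
    rw [hN, h y h1, sub_self]
  have htop : LinearMap.ker N ⊔ LinearMap.range N = ⊤ := by
    apply Submodule.eq_top_of_disjoint _ _ _ hdis
    rw [add_comm, LinearMap.finrank_range_add_finrank_ker]
  have h1 : e ∈ LinearMap.ker N ⊔ LinearMap.range N := by rw [htop]; trivial
  obtain ⟨e₁, h2, _, ⟨e₂, rfl⟩, h3⟩ := Submodule.mem_sup.1 h1
  refine ⟨e₁, e₂, ?_, h3.symm⟩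
  rw [LinearMap.mem_ker, hN, sub_eq_zero] at h2
  exact h2

theorem regular_link (hT : IsHomology T) (hTB : TB T Z) (hTB' : TB T Z')
    (hadd : ∀ j, (D.R ℓ j).Additive)
    (h : IsHomOf D ℓ T Z b A B) (h' : IsHomOf D ℓ T Z' b' B A) (f : A ⟶ B) : Regular f := by
  obtain ⟨φ, κ, φ1, φ2, ⟨κl, hκ⟩, κ2, κ3, κ4⟩ := h.classes
  obtain ⟨φ', κ', φ1', φ2', ⟨κl', hκ'⟩, κ2', κ3', κ4'⟩ := h'.classes
  have hE' := hT.finite Z' (2 * b') b'
  obtain ⟨fr, hfr⟩ := hT.lin Z (2 * b) b
  obtain ⟨fr', hfr'⟩ := hT.lin Z' (2 * b') b'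
  -- a linear solution
  have hsol : ∀ m, ∃ g : (D.R ℓ m).obj B ⟶ (D.R ℓ m).obj A,
      (D.R ℓ m).map f ≫ g ≫ (D.R ℓ m).map f = (D.R ℓ m).map f := by
    intro m
    obtain ⟨g, hg⟩ := regular_linear ((D.R ℓ m).map f).hom
    refine ⟨ModuleCat.ofHom g, ?_⟩
    ext x
    exact LinearMap.congr_fun hg x
  choose g₀ hg₀ using hsol
  obtain ⟨e₀, he₀⟩ := κ2'.2 g₀
  obtain ⟨e₁, e₂, he₁, he⟩ := decompose fr' (fun e he => by
    rw [← hfr']
    exact (hTB' _ _).2.2 e (by rw [hfr', hfr']; exact he)) e₀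
  -- the invariance of the class of `f`
  have hinv : ∀ m, (D.F ℓ m A).inv ≫ (D.R ℓ m).map f ≫ (D.F ℓ m B).hom = (D.R ℓ m).map f := by
    intro m
    rw [← κ3 f m, ← κ4, hT.frob_reg]
  have hinv' : ∀ m, (D.R ℓ m).map f ≫ (D.F ℓ m B).hom = (D.F ℓ m A).hom ≫ (D.R ℓ m).map f := by
    intro m
    conv_rhs => rw [← hinv m]
    rw [Iso.hom_inv_id_assoc]
  have hinv'' : ∀ m, (D.F ℓ m A).inv ≫ (D.R ℓ m).map f = (D.R ℓ m).map f ≫ (D.F ℓ m B).inv := by
    intro m
    rw [Iso.inv_comp_eq, ← Category.assoc, ← hinv' m, Category.assoc, Iso.hom_inv_id,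
      Category.comp_id]
  -- the family `h`
  let hh : ∀ m : ℤ, ((D.R ℓ m).obj A ⟶ (D.R ℓ m).obj B) :=
    fun m => (D.R ℓ m).map f ≫ κ' e₂ m ≫ (D.R ℓ m).map f
  obtain ⟨eh, heh⟩ := κ2.2 hh
  let gg : ∀ m : ℤ, ((D.R ℓ m).obj A ⟶ (D.R ℓ m).obj B) :=
    fun m => (D.R ℓ m).map f ≫ κ' e₁ m ≫ (D.R ℓ m).map f
  obtain ⟨eg, heg⟩ := κ2.2 gg
  have hconj : ∀ (e : T.E Z' (2 * b') b') m,
      (D.R ℓ m).map f ≫ κ' (T.frob Z' _ _ e) m ≫ (D.R ℓ m).map f =
      (D.F ℓ m A).inv ≫ ((D.R ℓ m).map f ≫ κ' e m ≫ (D.R ℓ m).map f) ≫ (D.F ℓ m B).hom := by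
    intro e m
    rw [κ4']
    simp only [Category.assoc]
    rw [hinv' m, ← Category.assoc (D.F ℓ m A).inv, hinv'' m]
    simp only [Category.assoc]
  -- `eg` is invariant
  have heg1 : T.frob Z (2 * b) b eg = eg := by
    apply κ2.1
    funext m
    rw [κ4, heg]
    change (D.F ℓ m A).inv ≫ ((D.R ℓ m).map f ≫ κ' e₁ m ≫ (D.R ℓ m).map f) ≫ (D.F ℓ m B).hom =
      (D.R ℓ m).map f ≫ κ' e₁ m ≫ (D.R ℓ m).map f
    rw [← hconj, hfr', he₁]
  -- the relation
  have hrel : T.reg Z (2 * b) b (φ f) = eg + (T.frob Z (2 * b) b eh - eh) := by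
    apply κ2.1
    funext m
    rw [κ3, hκ, map_add, map_sub, ← hκ, ← hκ, ← hκ]
    rw [Pi.add_apply, Pi.sub_apply, κ4, heg, heh]
    change (D.R ℓ m).map f = (D.R ℓ m).map f ≫ κ' e₁ m ≫ (D.R ℓ m).map f +
      ((D.F ℓ m A).inv ≫ ((D.R ℓ m).map f ≫ κ' e₂ m ≫ (D.R ℓ m).map f) ≫ (D.F ℓ m B).hom -
        (D.R ℓ m).map f ≫ κ' e₂ m ≫ (D.R ℓ m).map f)
    rw [← hconj, hfr']
    have h1 : κ' e₀ m = κ' e₁ m + (κ' (fr' e₂) m - κ' e₂ m) := by
      rw [he, hκ', map_add, map_sub, ← hκ', ← hκ', ← hκ']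
      rfl
    conv_lhs => rw [← hg₀ m, ← he₀, h1]
    rw [Preadditive.add_comp, Preadditive.comp_add, Preadditive.sub_comp, Preadditive.comp_sub]
  have hrel2 : T.frob Z (2 * b) b eh = eh := by
    apply (hTB _ _).2.2
    have h1 : T.frob Z (2 * b) b eh - eh = T.reg Z (2 * b) b (φ f) - eg := by
      rw [hrel]; abel
    rw [h1, hfr, map_sub, ← hfr, ← hfr, hT.frob_reg, heg1]
  rw [hrel2, sub_self, add_zero] at hrel
  -- `e₁` is a combination of classes
  have h1 : e₁ ∈ Submodule.span Ω (Set.range (T.reg Z' (2 * b') b')) := by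
    rw [← (hTB' _ _).1, hfr']
    exact he₁
  -- the subspace
  let ψ : (B ⟶ A) → T.M Z (2 * b) b := fun g => φ (f ≫ g ≫ f)
  have hψ : IsAdd ψ := by
    intro g g'
    change φ (f ≫ (g + g') ≫ f) = φ (f ≫ g ≫ f) + φ (f ≫ g' ≫ f)
    rw [Preadditive.add_comp, Preadditive.comp_add, φ1]
  have hbij : ∀ y : T.M Z' (2 * b') b', ∃ g : B ⟶ A, φ' g = y := φ2'.2
  choose γ hγ using hbij
  have hγadd : IsAdd γ := by
    intro y y'
    apply φ2'.1
    rw [φ1', hγ, hγ, hγ]
  have hcomp : IsAdd (fun y => ψ (γ y)) := by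
    intro y y'
    change ψ (γ (y + y')) = ψ (γ y) + ψ (γ y')
    rw [hγadd, hψ]
  let Λ : T.M Z' (2 * b') b' →ₗ[ℚ] T.M Z (2 * b) b :=
    (AddMonoidHom.mk' (fun y => ψ (γ y)) hcomp).toRatLinearMap
  have hΛ : ∀ y, Λ y = φ (f ≫ γ y ≫ f) := fun y => rfl
  have hmem : φ f ∈ LinearMap.range Λ := by
    apply descend hT hTB
    rw [hrel]
    -- the linear map from `E Z'` to `E Z`
    have hlin : ∀ e : T.E Z' (2 * b') b', e ∈ Submodule.span Ω (Set.range (T.reg Z' (2 * b') b')) →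
        ∀ c : T.E Z (2 * b) b, (∀ m, κ c m = (D.R ℓ m).map f ≫ κ' e m ≫ (D.R ℓ m).map f) →
        c ∈ Submodule.span Ω (T.reg Z (2 * b) b '' (LinearMap.range Λ)) := by
      intro e he
      induction he using Submodule.span_induction with
      | mem e he =>
        obtain ⟨y, rfl⟩ := he
        intro c hc
        have h2 : c = T.reg Z (2 * b) b (Λ y) := by
          apply κ2.1
          funext m
          rw [hc, hΛ, κ3, (D.R ℓ m).map_comp, (D.R ℓ m).map_comp, ← κ3' (γ y) m, hγ]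
        rw [h2]
        exact Submodule.subset_span ⟨_, ⟨y, rfl⟩, rfl⟩
      | zero =>
        intro c hc
        have h2 : c = 0 := by
          apply κ2.1
          funext m
          rw [hc, hκ', map_zero, hκ, map_zero]
          simp
        rw [h2]
        exact Submodule.zero_mem _
      | add x y hx hy ih1 ih2 =>
        intro c hc
        obtain ⟨c₁, hc₁⟩ := κ2.2 (fun m => (D.R ℓ m).map f ≫ κ' x m ≫ (D.R ℓ m).map f)
        obtain ⟨c₂, hc₂⟩ := κ2.2 (fun m => (D.R ℓ m).map f ≫ κ' y m ≫ (D.R ℓ m).map f)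
        have h2 : c = c₁ + c₂ := by
          apply κ2.1
          funext m
          have h3 : κ (c₁ + c₂) m = κ c₁ m + κ c₂ m := by
            rw [hκ, map_add, ← hκ, ← hκ]
            rfl
          have h4 : κ' (x + y) m = κ' x m + κ' y m := by
            rw [hκ', map_add, ← hκ', ← hκ']
            rfl
          rw [hc, h3, hc₁, hc₂, h4, Preadditive.add_comp, Preadditive.comp_add]
        rw [h2]
        exact Submodule.add_mem _ (ih1 c₁ fun m => by rw [hc₁]) (ih2 c₂ fun m => by rw [hc₂])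
      | smul q x hx ih =>
        intro c hc
        obtain ⟨c₁, hc₁⟩ := κ2.2 (fun m => (D.R ℓ m).map f ≫ κ' x m ≫ (D.R ℓ m).map f)
        have h2 : c = q • c₁ := by
          apply κ2.1
          funext m
          have h3 : κ (q • c₁) m = q • κ c₁ m := by
            rw [hκ, map_smul, ← hκ]
            rfl
          have h4 : κ' (q • x) m = q • κ' x m := by
            rw [hκ', map_smul, ← hκ']
            rfl
          rw [hc, h3, hc₁, h4, Linear.smul_comp, Linear.comp_smul]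
        rw [h2]
        exact Submodule.smul_mem _ _ (ih c₁ fun m => by rw [hc₁])
    exact hlin e₁ h1 eg fun m => by rw [heg]
  obtain ⟨y, hy⟩ := hmem
  rw [hΛ] at hy
  exact ⟨γ y, φ2.1 hy⟩

end Pool.Agent.X303.TS
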