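import Pool.Agent.X303.TS.Link

/-!
# The motivic t-structure
-/

set_option autoImplicit false

namespace Pool.Agent.X303.TS

open CategoryTheory CategoryTheory.Limits CategoryTheory.Pretriangulated
  Pool.Agent.W495.FM Pool.Agent.X303.TBDual Module

variable {K : Type} [Category.{0} K] {W L Ω : Type} [Field Ω]
  [Preadditive K] [HasZeroObject K] [HasShift K ℤ] [∀ n : ℤ, (shiftFunctor K n).Additive]
  [Pretriangulated K] {D : MotiveData K W L Ω}

/-- The properties of the morphisms between the objects `obj X i`. -/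
structure Good (D : MotiveData K W L Ω) : Prop where
  vanish : ∀ X i Y j (n : ℤ), n ≠ 0 → ∀ f : D.obj X i ⟶ (D.obj Y j)⟦n⟧, f = 0
  faithful : ∀ (ℓ : L) X i Y j (f : D.obj X i ⟶ D.obj Y j), (∀ m, (D.R ℓ m).map f = 0) → f = 0
  regular : ∀ X i Y j (f : D.obj X i ⟶ D.obj Y j), Regular f

/-- The blocks: direct summands of `M(X)(i)[2 i + n]` with cohomology only in the degree `m - n`. -/
def Blk (D : MotiveData K W L Ω) (τ : ℤ × ℤ) (A : K) : Prop :=
  (∃ X i, IsRetract A ((D.obj X i)⟦τ.2⟧)) ∧ ∀ ℓ j, j ≠ τ.1 - τ.2 → IsZero ((D.R ℓ j).obj A)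

/-- The degree. -/
def dg (τ : ℤ × ℤ) : ℤ := τ.1 - τ.2

theorem retract_zero {ℓ : L} {j : ℤ} {A B : K} (h : IsRetract A B) (hB : IsZero ((D.R ℓ j).obj B)) :
    IsZero ((D.R ℓ j).obj A) := by
  obtain ⟨i, r, hir⟩ := h
  rw [IsZero.iff_id_eq_zero, ← (D.R ℓ j).map_id, ← hir, (D.R ℓ j).map_comp, hB.eq_of_tgt
    ((D.R ℓ j).map i) 0, zero_comp]

theorem shift_retract {A B : K} (h : IsRetract A B) (n : ℤ) : IsRetract (A⟦n⟧) (B⟦n⟧) := by
  obtain ⟨i, r, hir⟩ := h
  exact ⟨i⟦n⟧', r⟦n⟧', by rw [← CategoryTheory.Functor.map_comp, hir, CategoryTheory.Functor.map_id]⟩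

variable (hG : IsGeometric D)

include hG in
theorem faithful_retract (g : Good D) (ℓ : L) {A B : K} {X Y : W} {i j n : ℤ}
    (hA : IsRetract A ((D.obj X i)⟦n⟧)) (hB : IsRetract B ((D.obj Y j)⟦n⟧)) (f : A ⟶ B)
    (hf : ∀ m, (D.R ℓ m).map f = 0) : f = 0 := by
  obtain ⟨a, r, har⟩ := hA
  obtain ⟨a', r', har'⟩ := hB
  obtain ⟨f₀, hf₀⟩ := (shiftFunctor K n).map_surjective (r ≫ f ≫ a')
  have h1 : f₀ = 0 := by
    apply g.faithful ℓ
    intro m
    obtain ⟨e⟩ := hG.shift ℓ (m - n) n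
    have h2 := e.hom.naturality f₀
    have h3 : (shiftFunctor K n ⋙ D.R ℓ (m - n)).map f₀ = 0 := by
      rw [Functor.comp_map, hf₀, CategoryTheory.Functor.map_comp, CategoryTheory.Functor.map_comp, hf]
      simp
    rw [h3, zero_comp] at h2
    have h4 : (D.R ℓ (m - n + n)).map f₀ = 0 := by
      rw [← cancel_epi (e.hom.app (D.obj X i)), ← h2, comp_zero]
    rw [sub_add_cancel] at h4
    exact h4
  rw [h1, Functor.map_zero] at hf₀
  have h5 : a ≫ (r ≫ f ≫ a') ≫ r' = f := by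
    simp only [Category.assoc]
    rw [har', Category.comp_id, reassoc_of% har]
  rw [← h5, ← hf₀, zero_comp, comp_zero]

theorem regular_shift (g : Good D) {X Y : W} {i j n : ℤ} (f : (D.obj X i)⟦n⟧ ⟶ (D.obj Y j)⟦n⟧) :
    Regular f := by
  obtain ⟨f₀, rfl⟩ := (shiftFunctor K n).map_surjective f
  obtain ⟨h, hh⟩ := g.regular X i Y j f₀
  exact ⟨h⟦n⟧', by rw [← CategoryTheory.Functor.map_comp, ← CategoryTheory.Functor.map_comp, hh]⟩

theorem vanish_shift (g : Good D) {X Y : W} {i j n n' : ℤ} (hn : n ≠ n')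
    (f : (D.obj X i)⟦n⟧ ⟶ (D.obj Y j)⟦n'⟧) : f = 0 := by
  apply (shiftFunctor K (-n)).map_injective
  rw [Functor.map_zero]
  let e₁ : (D.obj X i)⟦n⟧⟦-n⟧ ≅ D.obj X i := (shiftEquiv K n).unitIso.symm.app (D.obj X i)
  let e₂ : (D.obj Y j)⟦n'⟧⟦-n⟧ ≅ (D.obj Y j)⟦n' + -n⟧ := ((shiftFunctorAdd K n' (-n)).app _).symm
  have h1 := g.vanish X i Y j (n' + -n) (by omega) (e₁.inv ≫ f⟦-n⟧' ≫ e₂.hom)
  rw [← cancel_epi e₁.inv, ← cancel_mono e₂.hom, Category.assoc, h1]
  simp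

include hG in
theorem isBlocks [Nonempty W] (ℓ₀ : L) (g : Good D) : IsBlocks (Blk D) where
  zero τ A hA := by
    have := hG.additive
    obtain ⟨X⟩ := ‹Nonempty W›
    exact ⟨⟨X, 0, 0, 0, hA.eq_of_src _ _⟩, fun ℓ j _ => (D.R ℓ j).map_isZero hA⟩
  retract τ U A h hA := by
    obtain ⟨⟨X, i, h1⟩, h2⟩ := hA
    exact ⟨⟨X, i, h.trans h1⟩, fun ℓ j hj => retract_zero h (h2 ℓ j hj)⟩
  biprod τ A B hA hB := by
    obtain ⟨⟨X, i, h1⟩, h2⟩ := hA
    obtain ⟨⟨Y, j, h3⟩, h4⟩ := hB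
    obtain ⟨Z, l, h5⟩ := hG.sum X i Y j
    refine ⟨⟨Z, l, ?_⟩, fun ℓ k hk => ?_⟩
    · exact (h1.biprod h3).trans ((IsRetract.of_iso (mapBi (shiftFunctor K τ.2) _ _).symm).trans
        (shift_retract h5 τ.2))
    · have := hG.additive ℓ k
      have h6 : IsZero ((D.R ℓ k).obj A ⊞ (D.R ℓ k).obj B) := by
        rw [IsZero.iff_id_eq_zero]
        apply biprod.hom_ext
        · exact (h2 ℓ k hk).eq_of_tgt _ _
        · exact (h4 ℓ k hk).eq_of_tgt _ _
      exact h6.of_iso (mapBi (D.R ℓ k) A B)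
  hom τ σ hτσ A B hA hB f := by
    obtain ⟨⟨X, i, h1⟩, h2⟩ := hA
    obtain ⟨⟨Y, j, h3⟩, h4⟩ := hB
    by_cases hn : τ.2 = σ.2
    · rw [← hn] at h3
      refine faithful_retract hG g ℓ₀ h1 h3 f fun m => ?_
      by_cases hm : m = τ.1 - τ.2
      · have hm' : m ≠ σ.1 - σ.2 := by
          intro h5
          apply hτσ
          ext
          · omega
          · exact hn
        exact (h4 ℓ₀ m hm').eq_of_tgt _ _
      · exact (h2 ℓ₀ m hm).eq_of_src _ _
    · obtain ⟨a, r, har⟩ := h1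
      obtain ⟨a', r', har'⟩ := h3
      have h5 := vanish_shift g hn (r ≫ f ≫ a')
      have h6 : a ≫ (r ≫ f ≫ a') ≫ r' = f := by
        simp only [Category.assoc]
        rw [har', Category.comp_id, reassoc_of% har]
      rw [← h6, h5, zero_comp, comp_zero]
  regular τ A B hA hB f := by
    obtain ⟨⟨X, i, h1⟩, -⟩ := hA
    obtain ⟨⟨Y, j, h3⟩, -⟩ := hB
    exact Regular.of_retract h1 h3 (fun f => regular_shift g f) f

include hG in
theorem isShifted : IsShifted (Blk D) dg := by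
  intro τ a A hA
  obtain ⟨⟨X, i, h1⟩, h2⟩ := hA
  refine ⟨(τ.1, τ.2 + a), by unfold dg; ring, ⟨X, i, ?_⟩, fun ℓ j hj => ?_⟩
  · exact (shift_retract h1 a).trans (IsRetract.of_iso ((shiftFunctorAdd K τ.2 a).app _).symm)
  · obtain ⟨e⟩ := hG.shift ℓ j a
    refine (h2 ℓ (j + a) ?_).of_iso (e.app A)
    intro h3
    apply hj
    change j = τ.1 - (τ.2 + a)
    omega

include hG in
theorem retract_sum [IsIdempotentComplete K] [Nonempty L] (g : Good D) (s : Finset ℤ) :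
    ∀ (U : K) (X : W) (i : ℤ), IsRetract U (D.obj X i) →
      (∀ ℓ, ∀ j ∉ s, IsZero ((D.R ℓ j).obj U)) → Sum (Blk D) (fun _ => True) U := by
  have hadd := hG.additive
  obtain ⟨ℓ₀⟩ := ‹Nonempty L›
  have hzero : ∀ (X : W) (i : ℤ), IsRetract (D.obj X i) ((D.obj X i)⟦(0 : ℤ)⟧) := fun X i =>
    IsRetract.of_iso ((shiftFunctorZero K ℤ).app _).symm
  induction s using Finset.induction_on with
  | empty =>
    intro U X i hU h0
    apply Sum.zero
    rw [IsZero.iff_id_eq_zero]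
    refine faithful_retract hG g ℓ₀ (hU.trans (hzero X i)) (hU.trans (hzero X i)) _ fun m => ?_
    exact (h0 ℓ₀ m (by simp)).eq_of_src _ _
  | insert m s hm ih =>
    intro U X i hU h0
    obtain ⟨e, he⟩ := hG.kunneth X i m
    obtain ⟨a, r, har⟩ := hU
    have hU : IsRetract U (D.obj X i) := ⟨a, r, har⟩
    have hU' := hU.trans (hzero X i)
    let ε : U ⟶ U := a ≫ e ≫ r
    have hε1 : ∀ ℓ, (D.R ℓ m).map ε = 𝟙 _ := by
      intro ℓ
      change (D.R ℓ m).map (a ≫ e ≫ r) = _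
      rw [CategoryTheory.Functor.map_comp, CategoryTheory.Functor.map_comp, (he ℓ m).1 rfl, Category.id_comp, ← CategoryTheory.Functor.map_comp,
        har, CategoryTheory.Functor.map_id]
    have hε2 : ∀ ℓ j, j ≠ m → (D.R ℓ j).map ε = 0 := by
      intro ℓ j hj
      change (D.R ℓ j).map (a ≫ e ≫ r) = _
      rw [CategoryTheory.Functor.map_comp, CategoryTheory.Functor.map_comp, (he ℓ j).2 hj, zero_comp, comp_zero]
    have hid : ε ≫ ε = ε := by
      rw [← sub_eq_zero]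
      refine faithful_retract hG g ℓ₀ hU' hU' _ fun j => ?_
      rw [Functor.map_sub, CategoryTheory.Functor.map_comp]
      by_cases hj : j = m
      · subst hj
        rw [hε1, Category.comp_id, sub_self]
      · rw [hε2 ℓ₀ j hj, zero_comp, sub_self]
    obtain ⟨U₁, U₂, j₁, p₁, j₂, p₂, h1, h2, h3, h4, ⟨e'⟩⟩ := split_idempotent ε hid
    refine Sum.add U U₁ U₂ (m, 0) trivial ⟨⟨X, i, ?_⟩, fun ℓ j hj => ?_⟩ (ih U₂ X i ?_ ?_) e'
    · exact IsRetract.trans ⟨j₁, p₁, h1⟩ hU'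
    · have hj' : j ≠ m := by
        intro h5
        apply hj
        change j = m - 0
        omega
      rw [IsZero.iff_id_eq_zero, ← CategoryTheory.Functor.map_id]
      have h5 : 𝟙 U₁ = j₁ ≫ ε ≫ p₁ := by
        rw [← h2, Category.assoc, h1, Category.comp_id, h1]
      rw [h5, CategoryTheory.Functor.map_comp, CategoryTheory.Functor.map_comp, hε2 ℓ j hj', zero_comp, comp_zero]
    · exact IsRetract.trans ⟨j₂, p₂, h3⟩ hU
    · intro ℓ j hj
      by_cases hjm : j = m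
      · subst hjm
        rw [IsZero.iff_id_eq_zero, ← CategoryTheory.Functor.map_id]
        have h5 : 𝟙 U₂ = j₂ ≫ (𝟙 U - ε) ≫ p₂ := by
          rw [← h4, Category.assoc, h3, Category.comp_id, h3]
        rw [h5, CategoryTheory.Functor.map_comp, CategoryTheory.Functor.map_comp, Functor.map_sub, hε1, CategoryTheory.Functor.map_id, sub_self,
          zero_comp, comp_zero]
      · refine retract_zero ⟨j₂, p₂, h3⟩ (h0 ℓ j ?_)
        rw [Finset.mem_insert]
        tauto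

include hG in
theorem sum_all [IsIdempotentComplete K] [Nonempty L] [Nonempty W] (g : Good D) (A : K) :
    Sum (Blk D) (fun _ => True) A := by
  obtain ⟨ℓ₀⟩ := ‹Nonempty L›
  refine sum_of_generated (isBlocks hG ℓ₀ g) (isShifted hG) ?_ hG.generated A
  rintro A ⟨X, i, rfl⟩
  obtain ⟨s, hs⟩ := hG.bounded X i
  exact retract_sum hG g s _ X i (IsRetract.refl _) hs

include hG in
theorem real_zero {p : ℤ × ℤ → Prop} {ℓ : L} {j : ℤ} (hp : ∀ τ, p τ → j ≠ dg τ) {A : K}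
    (hA : Sum (Blk D) p A) : IsZero ((D.R ℓ j).obj A) := by
  have := hG.additive ℓ
  exact Sum.realization (D.R ℓ) (fun τ X hX j hj => hX.2 ℓ j hj) hp hA

include hG in
theorem conservative (g : Good D) (ℓ : L) {p : ℤ × ℤ → Prop} {A : K} (hA : Sum (Blk D) p A)
    (h0 : ∀ j, IsZero ((D.R ℓ j).obj A)) : IsZero A := by
  induction hA with
  | zero A h => exact h
  | add A C Y τ hτ hC hY e ih =>
    have h1 : IsZero C := by
      have h2 : IsRetract C A := (IsRetract.inl C Y).trans (IsRetract.of_iso e.symm)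
      obtain ⟨⟨X, i, h3⟩, -⟩ := hC
      rw [IsZero.iff_id_eq_zero]
      refine faithful_retract hG g ℓ h3 h3 _ fun m => ?_
      exact (retract_zero h2 (h0 m)).eq_of_src _ _
    have h2 : IsZero Y := by
      apply ih
      intro j
      have h3 : IsRetract Y (C ⊞ Y) := ⟨biprod.inr, biprod.snd, by simp⟩
      exact retract_zero (h3.trans (IsRetract.of_iso e.symm)) (h0 j)
    obtain ⟨e'⟩ := iso_left_zero (X := Y) h1
    exact h2.of_iso (e ≪≫ e')

include hG in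
theorem le_iff [IsIdempotentComplete K] [Nonempty W] (g : Good D) (ℓ : L) (A : K) (n : ℤ) :
    Sum (Blk D) (fun τ => dg τ ≤ n) A ↔ ∀ j, n < j → IsZero ((D.R ℓ j).obj A) := by
  have : Nonempty L := ⟨ℓ⟩
  constructor
  · intro h j hj
    exact real_zero hG (fun τ hτ => by omega) h
  · intro h
    obtain ⟨Y, Z, hY, hZ, ⟨e⟩⟩ := (sum_all hG g A).split (deg := dg) n
    have h1 : IsZero Z := by
      apply conservative hG g ℓ hZ
      intro j
      by_cases hj : n < j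
      · have h3 : IsRetract Z (Y ⊞ Z) := ⟨biprod.inr, biprod.snd, by simp⟩
        exact retract_zero (h3.trans (IsRetract.of_iso e.symm)) (h j hj)
      · exact real_zero hG (fun τ hτ => by omega) hZ
    obtain ⟨e'⟩ := iso_right_zero (X := Y) h1
    exact hY.of_iso (e ≪≫ e')

include hG in
theorem ge_iff [IsIdempotentComplete K] [Nonempty W] (g : Good D) (ℓ : L) (A : K) (n : ℤ) :
    Sum (Blk D) (fun τ => n ≤ dg τ) A ↔ ∀ j, j < n → IsZero ((D.R ℓ j).obj A) := by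
  have : Nonempty L := ⟨ℓ⟩
  constructor
  · intro h j hj
    exact real_zero hG (fun τ hτ => by omega) h
  · intro h
    obtain ⟨Y, Z, hY, hZ, ⟨e⟩⟩ := (sum_all hG g A).split (deg := dg) (n - 1)
    have h1 : IsZero Y := by
      apply conservative hG g ℓ hY
      intro j
      by_cases hj : j < n
      · exact retract_zero ((IsRetract.inl Y Z).trans (IsRetract.of_iso e.symm)) (h j hj)
      · exact real_zero hG (fun τ hτ => by omega) hY
    obtain ⟨e'⟩ := iso_left_zero (X := Z) h1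
    exact (hZ.mono fun τ hτ => by omega).of_iso (e ≪≫ e')

open MonoidalCategory in
include hG in
theorem tensor_blocks [MonoidalCategory K] (hT : IsTensor D) (τ σ : ℤ × ℤ) (A B : K)
    (hA : Blk D τ A) (hB : Blk D σ B) : ∃ ρ, dg ρ = dg τ + dg σ ∧ Blk D ρ (A ⊗ B) := by
  obtain ⟨⟨X, i, a, r, har⟩, h2⟩ := hA
  obtain ⟨⟨Y, j, a', r', har'⟩, h4⟩ := hB
  obtain ⟨Z, l, ⟨e⟩⟩ := hT.prod X i Y j
  obtain ⟨e'⟩ := hT.shift (D.obj X i) (D.obj Y j) τ.2 σ.2
  refine ⟨(τ.1 + σ.1, τ.2 + σ.2), by unfold dg; ring, ⟨Z, l, ?_⟩, fun ℓ k hk => ?_⟩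
  · have h5 : IsRetract (A ⊗ B) ((D.obj X i)⟦τ.2⟧ ⊗ (D.obj Y j)⟦σ.2⟧) := by
      refine ⟨a ⊗ₘ a', r ⊗ₘ r', ?_⟩
      rw [MonoidalCategory.tensorHom_comp_tensorHom, har, har', MonoidalCategory.id_tensorHom_id]
    exact h5.trans (IsRetract.of_iso (e' ≪≫ (shiftFunctor K (τ.2 + σ.2)).mapIso e))
  · apply hT.kunneth
    intro x y hxy
    by_cases hx : x = τ.1 - τ.2
    · right
      apply h4
      intro hy
      apply hk
      change k = τ.1 + σ.1 - (τ.2 + σ.2)
      omega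
    · left
      exact h2 ℓ x hx

open MonoidalCategory in
include hG in
/-- **The motivic t-structure.** -/
theorem exists_tStructure [IsIdempotentComplete K] [Nonempty L] [Nonempty W]
    [MonoidalCategory K] [MonoidalPreadditive K] (g : Good D) (hT : IsTensor D) :
    ∃ t : Triangulated.TStructure K,
      (∀ A, ∃ a b : ℤ, t.ge a A ∧ t.le b A) ∧
      (∀ A, (∀ n, t.le n A) → IsZero A) ∧ (∀ A, (∀ n, t.ge n A) → IsZero A) ∧
      (∀ (m n : ℤ) (A B : K), t.le m A → t.le n B → t.le (m + n) (A ⊗ B)) ∧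
      (∀ (m n : ℤ) (A B : K), t.ge m A → t.ge n B → t.ge (m + n) (A ⊗ B)) ∧
      ∀ (ℓ : L) (n : ℤ) (A : K),
        (t.le n A ↔ ∀ j, n < j → IsZero ((D.R ℓ j).obj A)) ∧
        (t.ge n A ↔ ∀ j, j < n → IsZero ((D.R ℓ j).obj A)) := by
  obtain ⟨ℓ₀⟩ := ‹Nonempty L›
  have : Nonempty L := ⟨ℓ₀⟩
  have hB := isBlocks hG ℓ₀ g
  refine ⟨tStructure hB (isShifted hG) (sum_all hG g), fun A => ?_, fun A hA => ?_, fun A hA => ?_,
    fun m n A B hA hB => ?_, fun m n A B hA hB => ?_, fun ℓ n A => ⟨le_iff hG g ℓ A n,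
      ge_iff hG g ℓ A n⟩⟩
  · obtain ⟨a, b, h1, h2⟩ := (sum_all hG g A).bounded (deg := dg)
    exact ⟨a, b, h2, h1⟩
  · apply conservative hG g ℓ₀ (sum_all hG g A)
    intro j
    exact (le_iff hG g ℓ₀ A (j - 1)).1 (hA (j - 1)) j (by omega)
  · apply conservative hG g ℓ₀ (sum_all hG g A)
    intro j
    exact (ge_iff hG g ℓ₀ A (j + 1)).1 (hA (j + 1)) j (by omega)
  · exact Sum.tensor (deg := dg) (tensor_blocks hG hT) (fun τ σ ρ h1 h2 h3 => by omega) hA hB
  · exact Sum.tensor (deg := dg) (tensor_blocks hG hT) (fun τ σ ρ h1 h2 h3 => by omega) hA hB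

end Pool.Agent.X303.TS
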