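import Pool.Agent.X303.TS.Base

/-!
# Semisimple triangulated categories: sums of blocks
-/

set_option autoImplicit false

namespace Pool.Agent.X303.TS

open CategoryTheory CategoryTheory.Limits CategoryTheory.Pretriangulated

section preadditive

variable {K : Type} [Category.{0} K] [Preadditive K]

/-- The morphism `f` is regular in the sense of von Neumann. -/
def Regular {X Y : K} (f : X ⟶ Y) : Prop := ∃ g : Y ⟶ X, f ≫ g ≫ f = f

theorem IsRetract.refl (X : K) : IsRetract X X := ⟨𝟙 X, 𝟙 X, Category.comp_id _⟩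

theorem IsRetract.trans {U X Y : K} (h : IsRetract U X) (h' : IsRetract X Y) : IsRetract U Y := by
  obtain ⟨i, r, hir⟩ := h
  obtain ⟨i', r', hir'⟩ := h'
  refine ⟨i ≫ i', r' ≫ r, ?_⟩
  rw [Category.assoc, reassoc_of% hir', hir]

theorem IsRetract.of_iso {X Y : K} (e : X ≅ Y) : IsRetract X Y := ⟨e.hom, e.inv, e.hom_inv_id⟩

theorem Regular.of_iso {X Y X' Y' : K} (e : X ≅ X') (e' : Y ≅ Y') {f : X ⟶ Y}
    (h : Regular (e.inv ≫ f ≫ e'.hom)) : Regular f := by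
  obtain ⟨g, hg⟩ := h
  refine ⟨e'.hom ≫ g ≫ e.inv, ?_⟩
  rw [← cancel_epi e.inv, ← cancel_mono e'.hom]
  simpa [Category.assoc] using hg

theorem Regular.of_retract {X Y X' Y' : K} (h : IsRetract X X') (h' : IsRetract Y Y')
    (hr : ∀ f : X' ⟶ Y', Regular f) (f : X ⟶ Y) : Regular f := by
  obtain ⟨i, r, hir⟩ := h
  obtain ⟨i', r', hir'⟩ := h'
  obtain ⟨g, hg⟩ := hr (r ≫ f ≫ i')
  refine ⟨i' ≫ g ≫ r, ?_⟩
  have h1 : i ≫ ((r ≫ f ≫ i') ≫ g ≫ r ≫ f ≫ i') ≫ r' = i ≫ (r ≫ f ≫ i') ≫ r' := by rw [hg]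
  simp only [Category.assoc] at h1
  rw [reassoc_of% hir, hir', Category.comp_id, reassoc_of% hir] at h1
  simpa [Category.assoc] using h1

variable [HasBinaryBiproducts K]

theorem split_idempotent [IsIdempotentComplete K] {U : K} (ε : U ⟶ U) (hε : ε ≫ ε = ε) :
    ∃ (U₁ U₂ : K) (j₁ : U₁ ⟶ U) (p₁ : U ⟶ U₁) (j₂ : U₂ ⟶ U) (p₂ : U ⟶ U₂),
      j₁ ≫ p₁ = 𝟙 U₁ ∧ p₁ ≫ j₁ = ε ∧ j₂ ≫ p₂ = 𝟙 U₂ ∧ p₂ ≫ j₂ = 𝟙 U - ε ∧
      Nonempty (U ≅ U₁ ⊞ U₂) := by
  obtain ⟨U₁, j₁, p₁, h1, h2⟩ := IsIdempotentComplete.idempotents_split U ε hε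
  have hε' : (𝟙 U - ε) ≫ (𝟙 U - ε) = 𝟙 U - ε := by
    simp [Preadditive.sub_comp, Preadditive.comp_sub, hε]
  obtain ⟨U₂, j₂, p₂, h3, h4⟩ := IsIdempotentComplete.idempotents_split U (𝟙 U - ε) hε'
  have h5 : j₁ ≫ p₂ = 0 := by
    have : j₁ ≫ p₂ = j₁ ≫ p₁ ≫ j₁ ≫ p₂ ≫ j₂ ≫ p₂ := by
      rw [reassoc_of% h1, h3, Category.comp_id]
    rw [this, reassoc_of% h2, reassoc_of% h4]
    simp [Preadditive.sub_comp, Preadditive.comp_sub, reassoc_of% hε]
  have h6 : j₂ ≫ p₁ = 0 := by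
    have : j₂ ≫ p₁ = j₂ ≫ p₂ ≫ j₂ ≫ p₁ ≫ j₁ ≫ p₁ := by
      rw [reassoc_of% h3, h1, Category.comp_id]
    rw [this, reassoc_of% h4, reassoc_of% h2]
    simp [Preadditive.sub_comp, Preadditive.comp_sub, reassoc_of% hε]
  refine ⟨U₁, U₂, j₁, p₁, j₂, p₂, h1, h2, h3, h4, ⟨⟨biprod.lift p₁ p₂, biprod.desc j₁ j₂, ?_, ?_⟩⟩⟩
  · rw [biprod.lift_desc, h2, h4]
    simp
  · apply biprod.hom_ext'
    · apply biprod.hom_ext <;> simp [h1, h5]
    · apply biprod.hom_ext <;> simp [h3, h6]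

theorem split_retract [IsIdempotentComplete K] {X Y U : K} (hXY : ∀ f : X ⟶ Y, f = 0)
    (hYX : ∀ f : Y ⟶ X, f = 0) (h : IsRetract U (X ⊞ Y)) :
    ∃ U₁ U₂ : K, IsRetract U₁ X ∧ IsRetract U₂ Y ∧ Nonempty (U ≅ U₁ ⊞ U₂) := by
  obtain ⟨i, r, hir⟩ := h
  have h1 : (i ≫ biprod.fst) ≫ (biprod.inl ≫ r) + (i ≫ biprod.snd) ≫ (biprod.inr ≫ r) = 𝟙 U := by
    have h2 : i ≫ (biprod.fst ≫ biprod.inl + biprod.snd ≫ biprod.inr) ≫ r = 𝟙 U := by
      rw [biprod.total, Category.id_comp, hir]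
    rw [Preadditive.add_comp, Preadditive.comp_add] at h2
    simp only [Category.assoc] at h2 ⊢
    exact h2
  have h3 : (biprod.inl ≫ r) ≫ (i ≫ biprod.snd) = (0 : X ⟶ Y) := hXY _
  have h4 : (biprod.inr ≫ r) ≫ (i ≫ biprod.fst) = (0 : Y ⟶ X) := hYX _
  generalize i ≫ biprod.fst = i₁ at h1 h4
  generalize i ≫ biprod.snd = i₂ at h1 h3
  generalize (biprod.inl ≫ r : X ⟶ U) = r₁ at h1 h3
  generalize (biprod.inr ≫ r : Y ⟶ U) = r₂ at h1 h4
  have h5 : i₂ ≫ r₂ = 𝟙 U - i₁ ≫ r₁ := by rw [← h1]; simp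
  have h6 : (i₁ ≫ r₁) ≫ (i₁ ≫ r₁) = i₁ ≫ r₁ := by
    have h7 : (i₁ ≫ r₁) ≫ (i₂ ≫ r₂) = 0 := by
      rw [Category.assoc, ← Category.assoc r₁, h3]
      simp
    rw [h5, Preadditive.comp_sub, Category.comp_id, sub_eq_zero] at h7
    exact h7.symm
  obtain ⟨U₁, U₂, j₁, p₁, j₂, p₂, k1, k2, k3, k4, e⟩ := split_idempotent (i₁ ≫ r₁) h6
  refine ⟨U₁, U₂, ⟨j₁ ≫ i₁, r₁ ≫ p₁, ?_⟩, ⟨j₂ ≫ i₂, r₂ ≫ p₂, ?_⟩, e⟩
  · have : (j₁ ≫ i₁) ≫ r₁ ≫ p₁ = j₁ ≫ (i₁ ≫ r₁) ≫ p₁ := by simp only [Category.assoc]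
    rw [this, ← k2, Category.assoc, k1, Category.comp_id, k1]
  · have : (j₂ ≫ i₂) ≫ r₂ ≫ p₂ = j₂ ≫ (i₂ ≫ r₂) ≫ p₂ := by simp only [Category.assoc]
    rw [this, h5, ← k4, Category.assoc, k3, Category.comp_id, k3]

theorem IsRetract.inl (X Y : K) : IsRetract X (X ⊞ Y) := ⟨biprod.inl, biprod.fst, by simp⟩

theorem IsRetract.biprod {U X U' X' : K} (h : IsRetract U X) (h' : IsRetract U' X') :
    IsRetract (U ⊞ U') (X ⊞ X') := by
  obtain ⟨i, r, hir⟩ := h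
  obtain ⟨i', r', hir'⟩ := h'
  refine ⟨biprod.map i i', biprod.map r r', ?_⟩
  apply biprod.hom_ext'
  · simp [reassoc_of% hir]
  · simp [reassoc_of% hir']

/-- Classes `B τ` of objects, the blocks of type `τ`, without morphisms between blocks of different
types, and with regular morphisms between blocks of the same type. -/
structure IsBlocks {I : Type} (B : I → K → Prop) : Prop where
  zero : ∀ τ X, IsZero X → B τ X
  retract : ∀ τ U X, IsRetract U X → B τ X → B τ U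
  biprod : ∀ τ X Y, B τ X → B τ Y → B τ (X ⊞ Y)
  hom : ∀ τ σ, τ ≠ σ → ∀ X Y, B τ X → B σ Y → ∀ f : X ⟶ Y, f = 0
  regular : ∀ τ X Y, B τ X → B τ Y → ∀ f : X ⟶ Y, Regular f

/-- The finite direct sums of blocks whose types have the property `p`. -/
inductive Sum {I : Type} (B : I → K → Prop) (p : I → Prop) : K → Prop
  | zero (X : K) (h : IsZero X) : Sum B p X
  | add (X A Y : K) (τ : I) (hτ : p τ) (hA : B τ A) (hY : Sum B p Y) (e : X ≅ A ⊞ Y) : Sum B p X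

variable {I : Type} {B : I → K → Prop}

theorem Sum.of_iso {p : I → Prop} {X X' : K} (e : X' ≅ X) (h : Sum B p X) : Sum B p X' := by
  cases h with
  | zero _ h => exact Sum.zero _ (h.of_iso e)
  | add _ A Y τ hτ hA hY e' => exact Sum.add _ A Y τ hτ hA hY (e ≪≫ e')

theorem Sum.mono {p q : I → Prop} (hpq : ∀ τ, p τ → q τ) {X : K} (h : Sum B p X) : Sum B q X := by
  induction h with
  | zero X h => exact Sum.zero X h
  | add X A Y τ hτ hA hY e ih => exact Sum.add X A Y τ (hpq τ hτ) hA ih e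

theorem iso_left_zero {Z X : K} (hZ : IsZero Z) : Nonempty (Z ⊞ X ≅ X) :=
  ⟨⟨biprod.snd, biprod.inr, by
    apply biprod.hom_ext'
    · exact hZ.eq_of_src _ _
    · simp, by simp⟩⟩

theorem iso_right_zero {Z X : K} (hZ : IsZero Z) : Nonempty (X ⊞ Z ≅ X) :=
  ⟨⟨biprod.fst, biprod.inl, by
    apply biprod.hom_ext'
    · simp
    · exact hZ.eq_of_src _ _, by simp⟩⟩

theorem Sum.biprod {p : I → Prop} {X Y : K} (hX : Sum B p X) (hY : Sum B p Y) :
    Sum B p (X ⊞ Y) := by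
  induction hX with
  | zero X h =>
    obtain ⟨e⟩ := iso_left_zero (X := Y) h
    exact hY.of_iso e
  | add X A Z τ hτ hA hZ e ih =>
    exact Sum.add _ A (Z ⊞ Y) τ hτ hA ih (biprod.mapIso e (Iso.refl Y) ≪≫ biprod.associator A Z Y)

theorem Sum.block [HasZeroObject K] {p : I → Prop} {X : K} {τ : I} (hτ : p τ) (h : B τ X) : Sum B p X := by
  obtain ⟨e⟩ := iso_right_zero (X := X) (isZero_zero K)
  exact Sum.add X X (HasZeroObject.zero' K).1 τ hτ h (Sum.zero _ (isZero_zero K)) e.symm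

theorem gather (hB : IsBlocks B) {p : I → Prop} {X : K} (hX : Sum B p X) (τ : I) :
    ∃ A Y : K, B τ A ∧ Sum B (fun σ => p σ ∧ σ ≠ τ) Y ∧ Nonempty (X ≅ A ⊞ Y) := by
  induction hX with
  | zero X h =>
    obtain ⟨e⟩ := iso_left_zero (X := X) h
    exact ⟨X, X, hB.zero τ X h, Sum.zero X h, ⟨e.symm⟩⟩
  | add X C Z σ hσ hC hZ e ih =>
    obtain ⟨A, Y, hA, hY, ⟨e'⟩⟩ := ih
    by_cases hστ : σ = τ
    · subst hστ
      exact ⟨C ⊞ A, Y, hB.biprod σ C A hC hA, hY,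
        ⟨e ≪≫ biprod.mapIso (Iso.refl C) e' ≪≫ (biprod.associator C A Y).symm⟩⟩
    · refine ⟨A, C ⊞ Y, hA, Sum.add _ C Y σ ⟨hσ, hστ⟩ hC hY (Iso.refl _), ⟨?_⟩⟩
      exact e ≪≫ biprod.mapIso (Iso.refl C) e' ≪≫ (biprod.associator C A Y).symm ≪≫
        biprod.mapIso (biprod.braiding C A) (Iso.refl Y) ≪≫ biprod.associator A C Y

theorem Sum.exists_finset {p : I → Prop} {X : K} (hX : Sum B p X) :
    ∃ s : Finset I, Sum B (fun σ => p σ ∧ σ ∈ s) X := by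
  classical
  induction hX with
  | zero X h => exact ⟨∅, Sum.zero X h⟩
  | add X A Y τ hτ hA hY e ih =>
    obtain ⟨s, hs⟩ := ih
    refine ⟨insert τ s, Sum.add X A Y τ ⟨hτ, Finset.mem_insert_self _ _⟩ hA (hs.mono ?_) e⟩
    exact fun σ h => ⟨h.1, Finset.mem_insert_of_mem h.2⟩

theorem block_hom_zero (hB : IsBlocks B) {q : I → Prop} {A Y : K} {τ : I} (hA : B τ A)
    (hY : Sum B q Y) (hq : ¬ q τ) : (∀ f : A ⟶ Y, f = 0) ∧ ∀ f : Y ⟶ A, f = 0 := by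
  induction hY with
  | zero Y h => exact ⟨fun f => h.eq_of_tgt _ _, fun f => h.eq_of_src _ _⟩
  | add Y C Z σ hσ hC hZ e ih =>
    have hne : τ ≠ σ := fun h => hq (h ▸ hσ)
    constructor
    · intro f
      have h1 : f ≫ e.hom = 0 := by
        apply biprod.hom_ext
        · rw [hB.hom τ σ hne A C hA hC ((f ≫ e.hom) ≫ biprod.fst), zero_comp]
        · rw [ih.1 ((f ≫ e.hom) ≫ biprod.snd), zero_comp]
      rw [← cancel_mono e.hom, h1, zero_comp]
    · intro f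
      have h1 : e.inv ≫ f = 0 := by
        apply biprod.hom_ext'
        · rw [hB.hom σ τ hne.symm C A hC hA (biprod.inl ≫ e.inv ≫ f), comp_zero]
        · rw [ih.2 (biprod.inr ≫ e.inv ≫ f), comp_zero]
      rw [← cancel_epi e.inv, h1, comp_zero]

theorem hom_zero (hB : IsBlocks B) {p q : I → Prop} (hpq : ∀ τ, p τ → ¬ q τ) {X Y : K}
    (hX : Sum B p X) (hY : Sum B q Y) (f : X ⟶ Y) : f = 0 := by
  induction hX with
  | zero X h => exact h.eq_of_src _ _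
  | add X C Z σ hσ hC hZ e ih =>
    have h1 : e.inv ≫ f = 0 := by
      apply biprod.hom_ext'
      · rw [(block_hom_zero hB hC hY (hpq σ hσ)).1 (biprod.inl ≫ e.inv ≫ f), comp_zero]
      · rw [ih (biprod.inr ≫ e.inv ≫ f), comp_zero]
    rw [← cancel_epi e.inv, h1, comp_zero]

theorem isZero_of_empty {p : I → Prop} (hp : ∀ τ, ¬ p τ) {X : K} (hX : Sum B p X) : IsZero X := by
  cases hX with
  | zero _ h => exact h
  | add _ A Y τ hτ hA hY e => exact absurd hτ (hp τ)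

theorem IsRetract.isZero {U X : K} (h : IsRetract U X) (hX : IsZero X) : IsZero U := by
  obtain ⟨i, r, hir⟩ := h
  rw [IsZero.iff_id_eq_zero, ← hir, hX.eq_of_tgt i 0, zero_comp]

theorem Sum.retract [IsIdempotentComplete K] (hB : IsBlocks B) {p : I → Prop} {X U : K}
    (hX : Sum B p X) (hU : IsRetract U X) : Sum B p U := by
  classical
  obtain ⟨s, hs⟩ := hX.exists_finset
  clear hX
  induction s using Finset.induction_on generalizing X U with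
  | empty =>
    exact Sum.zero U (hU.isZero (isZero_of_empty (fun τ h => by simp at h) hs))
  | insert τ s hτs ih =>
    by_cases hp : p τ
    · obtain ⟨A, Y, hA, hY, ⟨e⟩⟩ := gather hB hs τ
      have hY' : Sum B (fun σ => p σ ∧ σ ∈ s) Y := hY.mono fun σ h =>
        ⟨h.1.1, (Finset.mem_insert.1 h.1.2).resolve_left h.2⟩
      have h0 := block_hom_zero hB hA hY (fun h => h.2 rfl)
      obtain ⟨U₁, U₂, h1, h2, ⟨e'⟩⟩ := split_retract h0.1 h0.2 (hU.trans (IsRetract.of_iso e))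
      exact Sum.add U U₁ U₂ τ hp (hB.retract τ U₁ A h1 hA) (ih h2 hY') e'
    · refine ih hU (hs.mono fun σ h => ⟨h.1, (Finset.mem_insert.1 h.2).resolve_left ?_⟩)
      rintro rfl
      exact hp h.1

theorem Sum.regular (hB : IsBlocks B) {p q : I → Prop} {X Y : K} (hX : Sum B p X)
    (hY : Sum B q Y) (f : X ⟶ Y) : Regular f := by
  classical
  obtain ⟨s, hs⟩ := hX.exists_finset
  obtain ⟨t, ht⟩ := hY.exists_finset
  have hX' : Sum B (fun σ => σ ∈ s ∪ t) X := hs.mono fun σ h => Finset.mem_union_left _ h.2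
  have hY' : Sum B (fun σ => σ ∈ s ∪ t) Y := ht.mono fun σ h => Finset.mem_union_right _ h.2
  clear hs ht hX hY
  generalize s ∪ t = u at hX' hY'
  induction u using Finset.induction_on generalizing X Y with
  | empty =>
    have h0 := isZero_of_empty (fun τ h => by simp at h) hX'
    exact ⟨0, h0.eq_of_src _ _⟩
  | insert τ s hτs ih =>
    obtain ⟨A, X', hA, hX'', ⟨e⟩⟩ := gather hB hX' τ
    obtain ⟨C, Y', hC, hY'', ⟨e'⟩⟩ := gather hB hY' τ
    have h1 : Sum B (fun σ => σ ∈ s) X' := hX''.mono fun σ h =>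
      (Finset.mem_insert.1 h.1).resolve_left h.2
    have h2 : Sum B (fun σ => σ ∈ s) Y' := hY''.mono fun σ h =>
      (Finset.mem_insert.1 h.1).resolve_left h.2
    apply Regular.of_iso e e'
    generalize e.inv ≫ f ≫ e'.hom = f'
    have h3 : biprod.inl ≫ f' ≫ biprod.snd = (0 : A ⟶ Y') :=
      (block_hom_zero hB hA hY'' (fun h => h.2 rfl)).1 _
    have h4 : biprod.inr ≫ f' ≫ biprod.fst = (0 : X' ⟶ C) :=
      (block_hom_zero hB hC hX'' (fun h => h.2 rfl)).2 _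
    have h5 : f' = biprod.map (biprod.inl ≫ f' ≫ biprod.fst) (biprod.inr ≫ f' ≫ biprod.snd) := by
      apply biprod.hom_ext'
      · apply biprod.hom_ext
        · simp
        · simp [h3]
      · apply biprod.hom_ext
        · simp [h4]
        · simp
    obtain ⟨g₁, hg₁⟩ := hB.regular τ A C hA hC (biprod.inl ≫ f' ≫ biprod.fst)
    obtain ⟨g₂, hg₂⟩ := ih (X := X') (Y := Y') (biprod.inr ≫ f' ≫ biprod.snd) h1 h2
    rw [h5]
    refine ⟨biprod.map g₁ g₂, ?_⟩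
    generalize (biprod.inl ≫ f' ≫ biprod.fst : A ⟶ C) = a at *
    generalize (biprod.inr ≫ f' ≫ biprod.snd : X' ⟶ Y') = c at *
    apply biprod.hom_ext'
    · have : a ≫ g₁ ≫ a ≫ biprod.inl = (a ≫ g₁ ≫ a) ≫ (biprod.inl : C ⟶ C ⊞ Y') := by
        simp only [Category.assoc]
      simp [this, hg₁]
    · have : c ≫ g₂ ≫ c ≫ biprod.inr = (c ≫ g₂ ≫ c) ≫ (biprod.inr : Y' ⟶ C ⊞ Y') := by
        simp only [Category.assoc]
      simp [this, hg₂]

end preadditive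

end Pool.Agent.X303.TS
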